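import Pool.Agent.Results.MP_eeb1a4_ag.FinitelyGeneratedTranslates
import Pool.Agent.V11326.WI

/-!
# MP_eeb1a4_ag: Zilber-Pink for Kummer variations and ALL translates by units with exponents in typical windows

On a subvariety `W` of the torus `(ℂ^×)^n` the coordinate functions define a variation of mixed Hodge structures, the sum
of `n` Kummer extensions of `ℤ(0)` by `ℤ(1)`; its atypical special subvarieties are the irreducible subsets of the
intersections of `W` with the torsion cosets whose dimension is larger than expected. Let `V` be an arbitrary irreducible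
subvariety of the torus. There is a number `K`, depending only on `V`, such that we have the following for the translates
`g V`, `g_j = ∏_k u_k ^ e_kj`.

Let `w_0, w_1, … ≥ 1` be a sequence with exponent of convergence at most `τ` (for example `w_k = 2 ^ k`, `τ = 0`), `θ < 1` and
`s = max (0, n q + n - 1 - t)`. There is a set `E` of real `q × n` matrices of Hausdorff dimension at most
`(s + τ) / (1 - θ)`, of measure zero if `s + τ + n q θ < n q`, such that for all `α` outside `E` and all large `m` the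
translates of `V` by the points `g` with ALL integral exponent matrices `e` with `|e_kj - α_kj w_m| ≤ w_m ^ θ` have no
atypical subvariety, in each of the following cases.

1. `F ⊂ ℂ` is a number field with more than `K t` archimedean places, `u_1, …, u_q` are fundamental units of `F`.
2. `F ⊂ ℂ` is a countable field, `u_1, …, u_q` are in `F^×`, and `v_1, …, v_N`, `K t < N`, are absolute values of `F`,
archimedean or not, such that any `t` of the vectors `(log v_i(u_1), …, log v_i(u_q))` are linearly independent.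
3. The `v_i` are arbitrary absolute values of the field `ℂ`, and the torsion cosets are replaced by all cosets `η H` with
all `|log v_i(η_j)|` bounded.

The proof combines the starting result `FinitelyGeneratedTranslates` (few exceptions among the matrices in `[-R, R]`)
with a covering argument. The definitions are those of that file.
-/

set_option autoImplicit false

namespace Pool.Agent.Results.MP_eeb1a4_ag.TranslatesInWindows

open MvPolynomial NumberField NumberField.Units MeasureTheory
open Pool.Agent.Results.MP_b7926e_nt.NoAtypical (coset idealOf dim mem_idealOf NoAtypicalSubvariety)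
open Pool.Agent.Results.MP_eeb1a4_ag.FinitelyGeneratedTranslates

/-- The exponent of convergence of the sequence `v` is at most `τ`: the sum of the `v_n ^ (-p)` converges for all
`p > τ`. -/
def ExpLe (v : ℕ → ℝ) (τ : ℝ) : Prop := ∀ p : ℝ, τ < p → Summable fun n => (v n) ^ (-p)

/-- For all real matrices `α` outside a small set and all large `m` the translates of `V` by the points with the
coordinates `∏_k u_k ^ e_kj`, for ALL integral matrices `e` with `|e_kj - α_kj w_m| ≤ w_m ^ θ`, have the property `P`. -/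
def AllInWindows {n q : ℕ} (V : Set (Fin n → ℂ)) (u : Fin q → ℂ) (P : Set (Fin n → ℂ) → Prop) (t : ℕ) : Prop :=
  ∀ (w : ℕ → ℝ) (τ θ : ℝ), (∀ m, 1 ≤ w m) → 0 ≤ τ → ExpLe w τ → θ < 1 →
    ∃ E : Set (Fin q × Fin n → ℝ),
      dimH E ≤ ENNReal.ofReal ((max 0 ((n : ℝ) * q + n - 1 - t) + τ) / (1 - θ)) ∧
      (max 0 ((n : ℝ) * q + n - 1 - t) + τ + n * q * θ < n * q → volume E = 0) ∧
      ∀ α : Fin q × Fin n → ℝ, α ∉ E → ∃ m₀ : ℕ, ∀ m : ℕ, m₀ ≤ m → ∀ e : Fin q → Fin n → ℤ,
        (∀ k j, |(e k j : ℝ) - α (k, j) * w m| ≤ (w m) ^ θ) → P (FinitelyGeneratedTranslates.translate (fun j => ∏ k, u k ^ e k j) V)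

theorem transfer {n q t c : ℕ} (hn : 1 ≤ n) {V : Set (Fin n → ℂ)} {u : Fin q → ℂ} {P : Set (Fin n → ℂ) → Prop}
    (h : ∀ R : ℕ, 1 ≤ R → exceptions V u P R * (2 * R + 1) ^ t ≤ c * (2 * R + 1) ^ (n * q + n - 1)) :
    AllInWindows V u P t := by
  intro w τ θ hw hτ hwτ hθ
  obtain ⟨s, hs⟩ : ∃ s : ℝ, s = max 0 ((n : ℝ) * q + n - 1 - t) := ⟨_, rfl⟩
  rw [← hs]
  have hs0 : 0 ≤ s := by rw [hs]; exact le_max_left _ _
  obtain ⟨E, hE, hmain⟩ := Pool.Agent.V11326.WI.box_windows (ι := Fin q × Fin n) hs0
    (fun _ _ => {m : Fin q × Fin n → ℤ | ¬ P (FinitelyGeneratedTranslates.translate (fun j => ∏ k, u k ^ m (k, j)) V)})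
    (fun _ => (c : ℝ) * 3 ^ s) (by
      intro _ _ T hT
      have hfin : {m : Fin q × Fin n → ℤ | m ∈ {m : Fin q × Fin n → ℤ |
          ¬ P (FinitelyGeneratedTranslates.translate (fun j => ∏ k, u k ^ m (k, j)) V)} ∧ ∀ i, |m i| ≤ (T : ℤ)}.Finite := by
        apply Set.Finite.subset (Set.Finite.pi' fun _ : Fin q × Fin n => Set.finite_Icc (-(T : ℤ)) T)
        intro m hm i
        exact abs_le.1 (hm.2 i)
      refine ⟨hfin, ?_⟩
      have hfin2 : Finite {e : Fin q → Fin n → ℤ // (∀ k j, |e k j| ≤ (T : ℤ)) ∧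
          ¬ P (FinitelyGeneratedTranslates.translate (fun j => ∏ k, u k ^ e k j) V)} := by
        have h1 : {e : Fin q → Fin n → ℤ | (∀ k j, |e k j| ≤ (T : ℤ)) ∧
            ¬ P (FinitelyGeneratedTranslates.translate (fun j => ∏ k, u k ^ e k j) V)}.Finite := by
          apply Set.Finite.subset (Set.Finite.pi' fun _ : Fin q =>
            Set.Finite.pi' fun _ : Fin n => Set.finite_Icc (-(T : ℤ)) T)
          intro e he k j
          exact abs_le.1 (he.1 k j)
        exact h1.to_subtype
      have h1 : {m : Fin q × Fin n → ℤ | m ∈ {m : Fin q × Fin n → ℤ |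
          ¬ P (FinitelyGeneratedTranslates.translate (fun j => ∏ k, u k ^ m (k, j)) V)} ∧ ∀ i, |m i| ≤ (T : ℤ)}.ncard ≤ exceptions V u P T := by
        rw [← Nat.card_coe_set_eq, exceptions]
        refine Nat.card_le_card_of_injective (fun m => ⟨fun k j => m.1 (k, j), fun k j => m.2.2 (k, j), m.2.1⟩) ?_
        intro m m' hmm
        refine Subtype.ext (funext fun i => ?_)
        have h2 := congrArg Subtype.val hmm
        exact congrFun (congrFun h2 i.1) i.2
      have h2 := h T hT
      have hT1 : (1 : ℝ) ≤ T := by exact_mod_cast hT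
      have hR0 : (0 : ℝ) < 2 * (T : ℝ) + 1 := by positivity
      have hR1 : (1 : ℝ) ≤ 2 * (T : ℝ) + 1 := by linarith
      have h3 : (exceptions V u P T : ℝ) * (2 * (T : ℝ) + 1) ^ t ≤ c * (2 * (T : ℝ) + 1) ^ (n * q + n - 1) := by
        exact_mod_cast h2
      have e1 : ((n * q + n - 1 : ℕ) : ℝ) = (n : ℝ) * q + n - 1 := by
        rw [Nat.cast_sub (by nlinarith [Nat.zero_le (n * q)])]
        push_cast
        ring
      have h4 : (exceptions V u P T : ℝ) ≤ c * (2 * (T : ℝ) + 1) ^ s := by
        have h5 : (exceptions V u P T : ℝ) ≤ c * ((2 * (T : ℝ) + 1) ^ (n * q + n - 1) / (2 * (T : ℝ) + 1) ^ t) := by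
          rw [← mul_div_assoc, le_div_iff₀ (by positivity)]
          exact h3
        refine h5.trans (mul_le_mul_of_nonneg_left ?_ (Nat.cast_nonneg c))
        rw [← Real.rpow_natCast, ← Real.rpow_natCast, ← Real.rpow_sub hR0, e1]
        exact Real.rpow_le_rpow_of_exponent_le hR1 (by rw [hs]; exact le_max_right _ _)
      calc ({m : Fin q × Fin n → ℤ | m ∈ {m : Fin q × Fin n → ℤ |
            ¬ P (FinitelyGeneratedTranslates.translate (fun j => ∏ k, u k ^ m (k, j)) V)} ∧ ∀ i, |m i| ≤ (T : ℤ)}.ncard : ℝ)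
          ≤ (exceptions V u P T : ℝ) := by exact_mod_cast h1
        _ ≤ c * (2 * (T : ℝ) + 1) ^ s := h4
        _ ≤ c * (3 * (T : ℝ)) ^ s := by
            refine mul_le_mul_of_nonneg_left ?_ (Nat.cast_nonneg c)
            exact Real.rpow_le_rpow hR0.le (by linarith) hs0
        _ = (c : ℝ) * 3 ^ s * (T : ℝ) ^ s := by
            rw [Real.mul_rpow (by norm_num) (by linarith), mul_assoc]) hw hτ hwτ hθ
  have hcard : (Fintype.card (Fin q × Fin n) : ℝ) = n * q := by
    rw [Fintype.card_prod, Fintype.card_fin, Fintype.card_fin]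
    push_cast
    ring
  refine ⟨E, hE, fun hc => ?_, fun α hα => ?_⟩
  · refine Pool.Agent.V11326.WI.null (c := (n : ℝ) * q - s) (by rw [hcard]; linarith) hτ hθ ?_
      (by rw [hcard]; linarith)
    rw [hcard]
    have e : (n : ℝ) * q - ((n : ℝ) * q - s) + τ = s + τ := by ring
    rw [e]
    exact hE
  · obtain ⟨m₀, hm⟩ := hmain α hα 0
    refine ⟨m₀, fun m hmm e he => ?_⟩
    have h1 := hm m hmm (fun i => e i.1 i.2) fun i => he i.1 i.2
    exact not_not.1 h1

/-- **Main result.** -/
theorem result (n : ℕ) (hn : 1 ≤ n) (V : Set (Fin n → ℂ)) (hV : (idealOf V).IsPrime) :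
    ∃ K : ℕ,
      (∀ (F : Type) [Field F] [NumberField F] [Algebra F ℂ] (t : ℕ),
        K * t < Fintype.card (InfinitePlace F) →
          AllInWindows V (fun k => algebraMap F ℂ (fundSystem F k)) NoAtypicalSubvariety t) ∧
      (∀ N t : ℕ, K * t < N → ∀ (F : Type) [Field F] [Countable F] [Algebra F ℂ]
        (v : Fin N → AbsoluteValue F ℝ), (∀ i, IsPlace (v i)) → ∀ (q : ℕ) (u : Fin q → F),
          (∀ k, u k ≠ 0) → InGeneralPosition t v u →
            AllInWindows V (fun k => algebraMap F ℂ (u k)) NoAtypicalSubvariety t) ∧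
      (∀ N t : ℕ, K * t < N → ∀ (v : Fin N → AbsoluteValue ℂ ℝ) (q : ℕ) (u : Fin q → ℂ),
        (∀ k, u k ≠ 0) → InGeneralPosition t v u → ∀ B : ℝ, AllInWindows V u (NoAtypicalWithin v B) t) := by
  obtain ⟨K, h1, h2, h3⟩ := FinitelyGeneratedTranslates.result n V hV
  refine ⟨K, ?_, ?_, ?_⟩
  · intro F _ _ _ t ht
    obtain ⟨c, hc⟩ := h1 F t ht
    exact transfer hn hc
  · intro N t hNt F _ _ _ v hv q u hu hgen
    obtain ⟨c, hc⟩ := h2 N t hNt F v hv q u hu hgen
    exact transfer hn hc
  · intro N t hNt v q u hu hgen B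
    obtain ⟨c, hc⟩ := h3 N t hNt v q u hu hgen B
    exact transfer hn hc

end Pool.Agent.Results.MP_eeb1a4_ag.TranslatesInWindows
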