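import Pool.Agent.Results.MP_eeb1a4_ag.HodgeAlgebraicWindows
import Pool.Agent.V11168.NX.AI

/-!
# All algebraic integers near the dilates of almost every polynomial are Hodge generic points

Let `m ≥ 2`, let `β_1, …, β_m ∈ (0, 1)` be rational and consider the hypergeometric variation of Hodge structure of rank `2m`
and weight `2m - 1` of the file `HodgeAlgebraicWindows` (for `m = 2` and `β = (1/5, 2/5)`: the mirror quintic threefolds), with
a rational structure `(C, A)`; its generic Mumford–Tate group is `GSp(2m)`. All points of the Hodge locus of this variation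
are atypical, and the conjecture predicts that only finitely many points `z = 1/ξ` are not Hodge generic. The starting file
`HodgeAlgebraicWindows` proves that among the algebraic integers `ξ` of degree at most `g` and of size at most `T` the
proportion of the points `z = 1/ξ` which are not Hodge generic is at most `C T^(-c)`. There the exceptional points are not
known.

Here we prove a statement without exceptional points. An algebraic integer `ξ` of degree `g` is given by its minimal polynomial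
`X^g + ∑ a_j X^j`; for a monic **real** polynomial `X^g + ∑ x_j X^j` we consider the dilates `X^g + ∑ x_j V^(g-j) X^j` (the
roots are multiplied by `V`) for `V = v_N`, and **all** algebraic integers `ξ` of degree `g` with
`|a_j - x_j V^(g-j)| ≤ V^θ` for all `j < g`. The theorem: there is `θ > 0` (depending on `g` and `β` only) such that for all
sequences `v_N ≥ 1` with exponent of convergence zero (for example `v_N = 2^N`) and all rational structures, for almost all
`x ∈ ℝ^g`, for all large `N` and all these `ξ`: `|ξ| > 1` and the fibre at `z = 1/ξ` is Hodge generic. For `g = 1` these are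
the integers of the windows `[x v_N - v_N^θ, x v_N + v_N^θ]`.

Proof: the theorem on windows of `HodgeAlgebraicWindows`, the counting lemma `Pool.Agent.Y119.HA.bad_count`, and the
Borel–Cantelli lemma for boxes of sides `V^(θ - (g - j))` (`Pool.Agent.V11168.NX.ae_ai`).
-/

set_option autoImplicit false

open MeasureTheory Filter

namespace Pool.Agent.Results.MP_eeb1a4_ag.WindowsOfAlgebraicIntegers

open Pool.Agent.Results.MP_eeb1a4_ag.HodgeAlgebraicWindows

/-- `ξ` is an algebraic integer of degree `g`, and the coefficients of its minimal polynomial are at distance at most `r` from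
the coefficients `x_j V^(g-j)` of the dilated polynomial `X^g + ∑ x_j V^(g-j) X^j`. -/
def Near {g : ℕ} (x : Fin g → ℝ) (V r : ℝ) (ξ : ℂ) : Prop :=
  IsIntegral ℤ ξ ∧ (minpoly ℤ ξ).natDegree = g ∧
    ∀ j : Fin g, |((minpoly ℤ ξ).coeff j : ℝ) - x j * V ^ (g - (j : ℕ))| ≤ r

/-- The exponent of convergence of the sequence `v` is at most `τ`. -/
def ConvergenceExponentLe (v : ℕ → ℝ) (τ : ℝ) : Prop := ∀ s : ℝ, τ < s → Summable (fun n : ℕ => (v n) ^ (-s))

lemma ae_one {g : ℕ} {p : (Fin g → ℝ) → Prop} (h : ∀ᵐ x : Fin 1 × Fin g → ℝ, p fun j => x (0, j)) :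
    ∀ᵐ x : Fin g → ℝ, p x := by
  have h1 := (volume_measurePreserving_piCongrLeft (fun _ : Fin 1 × Fin g => ℝ)
    (Equiv.uniqueProd (Fin g) (Fin 1)).symm)
  have h2 := h1.quasiMeasurePreserving.ae h
  filter_upwards [h2] with x hx
  have h3 : (fun j => (MeasurableEquiv.piCongrLeft (fun _ : Fin 1 × Fin g => ℝ)
      (Equiv.uniqueProd (Fin g) (Fin 1)).symm) x ((0 : Fin 1), j)) = x := by
    funext j
    exact Equiv.piCongrLeft_apply_apply (fun _ : Fin 1 × Fin g => ℝ) (Equiv.uniqueProd (Fin g) (Fin 1)).symm x j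
  rw [h3] at hx
  exact hx

/-- **Theorem.** Let `m ≥ 2` and let `β_1, …, β_m` be rational numbers in `(0, 1)`. For every `g` there is `θ > 0` such that for
every sequence `v_N ≥ 1` with exponent of convergence zero, every rational structure `(C, A)` and almost all `x ∈ ℝ^g` the
following holds for all large `N`: for all algebraic integers `ξ` of degree `g` whose minimal polynomials have coefficients at
distance at most `v_N ^ θ` from the coefficients `x_j v_N^(g-j)`, we have `|ξ| > 1` and the fibre at `z = 1/ξ` of the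
hypergeometric variation is Hodge generic. -/
theorem result {m : ℕ} (hm : 2 ≤ m) (β : Fin m → ℚ) (hβ : ∀ j, 0 < β j ∧ β j < 1) (g : ℕ) :
    ∃ θ : ℝ, 0 < θ ∧ ∀ v : ℕ → ℝ, (∀ N, 1 ≤ v N) → ConvergenceExponentLe v 0 →
      ∀ (C : Matrix (Fin (2 * m)) (Fin (2 * m)) ℂ) (A : Matrix (Fin (2 * m)) (Fin (2 * m)) ℚ), RationalStructure C A →
      ∀ᵐ x : Fin g → ℝ, ∃ N₀ : ℕ, ∀ N : ℕ, N₀ ≤ N → ∀ ξ : ℂ, Near x (v N) ((v N) ^ θ) ξ →
        1 < ‖ξ‖ ∧ HodgeGeneric β ξ C A := by
  classical
  obtain ⟨G0, h0⟩ := (HodgeAlgebraicWindows.result hm β hβ).1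
  obtain ⟨E, hE⟩ := h0 (max G0 1) (le_max_left _ _) g (4 * g + 4)
  obtain ⟨c, hc, K, hK0, hK⟩ := Pool.Agent.Y119.HA.bad_count g (max G0 1) E (m + 1) (le_max_right _ _)
  obtain ⟨h1, h2, h3⟩ := Pool.Agent.V11168.NX.exp_ok hc (1 * g)
  refine ⟨_, h1, fun v hv hv0 C A hC => ?_⟩
  have h4 := hK (fun ξ => ¬ (1 < ‖ξ‖ ∧ HodgeGeneric β ξ C A)) (by
    intro H ξ hξ hht S hS
    obtain ⟨h5, h6⟩ := hE H ξ hξ hht
    obtain ⟨S', hS', hS2⟩ := h6 C A hC
    refine le_trans (Finset.card_le_card fun u hu => ?_) hS'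
    obtain ⟨hu1, hu2, hu3⟩ := hS u hu
    by_contra hu4
    exact hu3 ⟨h5 u hu2, hS2 u hu1 hu2 hu4⟩)
  have hae := Pool.Agent.V11168.NX.ae_ai (k := 1) (m := g)
    (fun α : Fin 1 → ℂ => ¬ (1 < ‖α 0‖ ∧ HodgeGeneric β (α 0) C A)) (c := c) (C := K) hK0 (by
      intro T hT
      have hinj : Function.Injective (fun α : Fin 1 → ℂ => α 0) := by
        intro α α' h
        funext i
        rw [Fin.eq_zero i]
        exact h
      have hsub : (fun α : Fin 1 → ℂ => α 0) '' {α : Fin 1 → ℂ | (∀ i, Pool.Agent.V11168.NX.AI g T (α i)) ∧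
          ¬ (1 < ‖α 0‖ ∧ HodgeGeneric β (α 0) C A)} ⊆
          (((Pool.Agent.Y916.Sl.NF g T).filter fun ξ => ¬ (1 < ‖ξ‖ ∧ HodgeGeneric β ξ C A) : Finset ℂ) : Set ℂ) := by
        rintro ξ ⟨α, ⟨ha, hb⟩, rfl⟩
        rw [Finset.mem_coe, Finset.mem_filter]
        exact ⟨Pool.Agent.Y916.Sl.mem_NF.2 (ha 0), hb⟩
      have hfin := (Finset.finite_toSet ((Pool.Agent.Y916.Sl.NF g T).filter fun ξ =>
        ¬ (1 < ‖ξ‖ ∧ HodgeGeneric β ξ C A))).subset hsub
      refine ⟨Set.Finite.of_finite_image hfin hinj.injOn, ?_⟩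
      rw [← Set.ncard_image_of_injective _ hinj]
      have h7 := Set.ncard_le_ncard hsub (Finset.finite_toSet _)
      rw [Set.ncard_coe_finset] at h7
      have h8 := h4 T hT
      rw [one_mul]
      refine le_trans ?_ h8
      exact_mod_cast h7)
    hv (fun s hs => hv0 s hs) h2 h3
  refine ae_one (p := fun x => ∃ N₀ : ℕ, ∀ N : ℕ, N₀ ≤ N → ∀ ξ : ℂ,
    Near x (v N) ((v N) ^ min 1 (c / (((1 * g : ℕ) : ℝ) + 1))) ξ → 1 < ‖ξ‖ ∧ HodgeGeneric β ξ C A) ?_
  filter_upwards [hae] with x hx
  obtain ⟨N₀, hN₀⟩ := hx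
  refine ⟨N₀, fun N hN ξ hξ => ?_⟩
  by_contra hcon
  refine hN₀ N hN (fun _ => ξ) (fun i => ⟨hξ.1, hξ.2.1, fun j => ?_⟩) hcon
  have h9 := hξ.2.2 j
  rw [Fin.eq_zero i]
  exact h9

end Pool.Agent.Results.MP_eeb1a4_ag.WindowsOfAlgebraicIntegers
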